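import Pool.Agent.H92.ND.TargetsB
import Pool.Agent.H17.SM.LBL

/-!
# MP_70ba79_ag, board `ndc_modules`, row SNV: naive sections are sections
-/

set_option autoImplicit false

namespace Pool.Agent.H97.ND

open MvPolynomial SC Pool.Agent.H27.LV Pool.Agent.H84.SM Pool.Agent.H84.ND Pool.Agent.H92.ND
open Pool.Agent.H17.SM

namespace SNV

variable {k : Type} [Field k] {G : A3 k} {d : ℕ}

/-- the substituted variables -/
noncomputable def YY (G : A3 k) (d : ℕ) (j : Fin 3) : A2 k :=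
  (d : A2 k) * gA G * ya j - fA G * xa j

theorem dv_YY (hG : G.IsHomogeneous d) (j : Fin 3) : dv (YY G d j) = 0 := by
  have h0 : dv (gA G) = 0 := dv_aeval _
  have h1 : dv ((d : A2 k)) = 0 := Derivation.map_natCast _ _
  unfold YY
  rw [map_sub, Derivation.leibniz, dv_mul0 h1 h0, dv_ya, Derivation.leibniz, dv_xa, dv_fA hG]
  simp only [smul_eq_mul, mul_zero, add_zero, zero_add]
  ring

theorem fA_zero (hG : G.IsHomogeneous 0) : fA G = 0 := by
  have h1 : G = C (coeff 0 G) := by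
    rw [← totalDegree_eq_zero_iff_eq_C]
    exact Nat.le_zero.1 hG.totalDegree_le
  unfold fA dp gr
  refine Finset.sum_eq_zero fun i _ => ?_
  rw [h1, pderiv_C, map_zero, zero_mul]

theorem bh_YY (hG : G.IsHomogeneous d) (j : Fin 3) : BH d 1 (YY G d j) := by
  unfold YY
  rcases Nat.eq_zero_or_pos d with rfl | hd
  · rw [fA_zero hG, Nat.cast_zero, zero_mul, zero_mul, zero_mul, sub_zero]
    exact bh_zero _ _
  refine bh_sub ?_ ?_
  · have h0 : (d : A2 k) = C (d : k) := by rw [map_natCast]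
    have h := bh_mul (bh_mul (bh_C (k := k) (d : k)) (bh_gA hG)) (bh_ya (k := k) j)
    rw [← h0] at h
    simpa using h
  · have h := bh_mul (bh_fA hG) (bh_xa (k := k) j)
    have e1 : d - 1 + 1 = d := by omega
    rwa [e1, add_zero] at h

theorem th_YY (l j : Fin 3) : th G l (YY G d j) = aeval xb G * ((d : B2 k) * chy G l j) := by
  have e2 : th G l (gA G) = aeval xb G := th_aeval l _
  unfold YY
  rw [map_sub, map_mul, map_mul, map_mul, th_fA, zero_mul, sub_zero, th_ya, e2, map_natCast]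
  ring

theorem nv_eq (b : A2 k) : nv G d b = ∑ m ∈ b.support, C (coeff m b) *
    ∏ v, (Sum.elim xa (YY G d) v) ^ m v := by
  unfold nv
  rw [aeval_def, eval₂_eq']
  rfl

theorem bh_val (hG : G.IsHomogeneous d) (v : Fin 3 ⊕ Fin 3) :
    BH (wx v + d * wy v) (wy v) (Sum.elim xa (YY G d) v : A2 k) := by
  rcases v with j | j
  · change BH (1 + d * 0) 0 (xa j)
    rw [mul_zero, add_zero]
    exact bh_xa j
  · change BH (0 + d * 1) 1 (YY G d j)
    rw [mul_one, zero_add]
    exact bh_YY hG j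

theorem weights {a i : ℕ} {b : A2 k} (hb : BH a i b) {m : Fin 3 ⊕ Fin 3 →₀ ℕ}
    (hm : m ∈ b.support) : ∑ v, m v * wx v = a ∧ ∑ v, m v * wy v = i := by
  have h1 := hb.1 (mem_support_iff.1 hm)
  have h2 := hb.2 (mem_support_iff.1 hm)
  rw [Finsupp.weight_apply, Finsupp.sum_fintype _ _ (fun i => by simp)] at h1 h2
  simp only [smul_eq_mul] at h1 h2
  exact ⟨h1, h2⟩

theorem bh_nv (hG : G.IsHomogeneous d) {a i : ℕ} {b : A2 k} (hb : BH a i b) :
    BH (a + d * i) i (nv G d b) := by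
  rw [nv_eq]
  refine bh_sum _ _ fun m hm => ?_
  obtain ⟨h1, h2⟩ := weights hb hm
  have h3 := bh_mul (bh_C (k := k) (coeff m b)) (bh_prod Finset.univ _ _ _
    (fun (v : Fin 3 ⊕ Fin 3) _ => bh_pow (bh_val hG v) (m v)))
  rw [zero_add, zero_add, h2] at h3
  have e1 : ∑ v, m v * (wx v + d * wy v) = a + d * i := by
    rw [← h1, ← h2, Finset.mul_sum, ← Finset.sum_add_distrib]
    refine Finset.sum_congr rfl fun v _ => ?_
    ring
  rwa [e1] at h3

theorem dv_nv (hG : G.IsHomogeneous d) (b : A2 k) : dv (nv G d b) = 0 := by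
  rw [nv_eq]
  refine dv_sum0 _ _ fun m _ => dv_mul0 (dv_C _) (dv_prod0 _ _ fun v _ => dv_pow0 ?_ _)
  rcases v with j | j
  · exact dv_xa j
  · exact dv_YY hG j

theorem dvd_nv (l : Fin 3) {a i : ℕ} {b : A2 k} (hb : BH a i b) :
    aeval xb G ^ i ∣ th G l (nv G d b) := by
  rw [nv_eq, map_sum]
  refine Finset.dvd_sum fun m hm => ?_
  obtain ⟨-, h2⟩ := weights hb hm
  rw [map_mul, map_prod]
  refine Dvd.dvd.mul_left ?_ _
  rw [← h2, ← Finset.prod_pow_eq_pow_sum]
  refine Finset.prod_dvd_prod_of_dvd _ _ fun v _ => ?_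
  rw [map_pow]
  rcases v with j | j
  · change aeval xb G ^ (m (Sum.inl j) * 0) ∣ _
    rw [mul_zero, pow_zero]
    exact one_dvd _
  · change aeval xb G ^ (m (Sum.inr j) * 1) ∣ th G l (YY G d j) ^ m (Sum.inr j)
    rw [mul_one, th_YY]
    exact pow_dvd_pow_of_dvd (Dvd.intro _ rfl) _

end SNV

open SNV in
theorem pf_SNV : Pool.Agent.H92.ND.T_SNV := by
  intro k _ G d hG a i b hb
  refine ⟨inv_C (dv_nv hG b), ⟨a + d * i, ?_, bhn_C (bh_nv hG hb)⟩, fun l => ?_⟩
  · push_cast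
    ring
  · rw [Psi_C]
    unfold gp
    rw [← map_pow]
    exact map_dvd Polynomial.C (dvd_nv l hb)

end Pool.Agent.H97.ND
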