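import Pool.Agent.H76.ND.Targets2

/-!
# Module DEP2 of Part D
-/

open MeasureTheory ProbabilityTheory
open scoped ENNReal

namespace Pool.Agent.H97.ND

open Pool.Agent.H99.NS Pool.Agent.H22.LPP Pool.Agent.H95.INS Pool.Agent.H76.ND

theorem lv_pos (i : ℕ) : 0 < lv i := by
  unfold lv
  positivity

theorem lv_succ (i : ℕ) : lv (i + 1) = 32 * 64 ^ i := by
  unfold lv
  rw [Nat.add_sub_cancel]

theorem lv_two (i : ℕ) (h : 1 ≤ i) : 2 * lv i = 64 ^ i := by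
  obtain ⟨n, rfl⟩ : ∃ n, i = n + 1 := ⟨i - 1, by omega⟩
  rw [lv_succ, pow_succ]
  ring

theorem pf_DEP2 (h_WB : T_WB) (h_LW : T_LW) : T_DEP2 := by
  intro q hq0 hq1
  obtain ⟨C1, hC1, hWB⟩ := h_WB q hq0 hq1
  obtain ⟨C2, hC2, hLW⟩ := h_LW q hq0 hq1
  have hsg := sg_pos hq0 hq1
  refine ⟨C1 + 2 * C2 + sg q, by positivity, ?_⟩
  intro P P' K0 x Xc b g hK0 hx hXc hXb hb hG hG' hp hg0 hgx hgX
  have hl := lv_pos b
  have hl1 := lv_succ b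
  have hl2 := lv_two b hb
  have p64 : (0 : ℤ) < 64 ^ b := by positivity
  have r64 : (0 : ℝ) < 64 ^ b := by positivity
  have r16 : (0 : ℝ) < 16 ^ b := by positivity
  have r4 : (0 : ℝ) < 4 ^ b := by positivity
  have hds : ds b b = 0 := by unfold ds; omega
  have e1 := hWB P K0 b b b 0 g hK0 hb le_rfl le_rfl (by omega) hl.le hp (by
    rw [hg0]
    simp only [Int.cast_zero, abs_zero]
    positivity) hG.uc (fun m h1 h2 => hG.u m h1 h2)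
  have hc : Conn (-lv (b + 1), g (-lv (b + 1))) (0, 0) g := ⟨hp, rfl, hg0⟩
  have hR := hc.reach (by simp only; rw [hl1]; linarith)
  have e2 := hLW P' K0 Xc b b b (0, 0) (g (-lv (b + 1))) hK0 hXc hXb hb le_rfl le_rfl
    (by simp only; omega) hl.le (by
    simp only [Int.cast_zero, abs_zero]
    positivity) (by simpa using hgX) hR hG'.il (fun m h1 h2 => hG'.l m h1 h2)
  rw [hds] at e1 e2
  simp only [mul_zero, pow_zero, mul_one, sub_zero, zero_add, hg0] at e1 e2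
  obtain ⟨p, hpd⟩ : ∃ p : ℝ, p = (g (-lv (b + 1)) : ℝ) := ⟨_, rfl⟩
  rw [← hpd] at e1 e2 hgx
  have hlr : ((lv (b + 1) - lv b : ℤ) : ℝ) = 63 / 2 * 64 ^ b := by
    have : 2 * (lv (b + 1) - lv b) = 63 * 64 ^ b := by rw [mul_sub, hl2, hl1]; ring
    have h2 : (2 : ℝ) * ((lv (b + 1) - lv b : ℤ) : ℝ) = 63 * 64 ^ b := by exact_mod_cast this
    linarith
  have hlp : (0 : ℝ) < ((lv (b + 1) + lv b : ℤ) : ℝ) := by
    have : 0 < lv (b + 1) + lv b := by rw [hl1]; linarith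
    exact_mod_cast this
  rw [hlr] at e2
  have hp2 : p ^ 2 ≤ x ^ 2 * (4 ^ b * 64 ^ b) := by
    have h1 : p ^ 2 ≤ (x * 16 ^ b) ^ 2 := by
      rw [← sq_abs p]
      exact pow_le_pow_left₀ (abs_nonneg p) hgx 2
    have h2 : ((16 : ℝ) ^ b) ^ 2 = 4 ^ b * 64 ^ b := by
      rw [← pow_mul, mul_comm b 2, pow_mul, ← mul_pow]
      norm_num
    rw [mul_pow, h2] at h1
    exact h1
  have f1 : 0 ≤ sg q / 2 * p ^ 2 / (1001 / 1000 * ((lv (b + 1) + lv b : ℤ) : ℝ)) := by positivity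
  have f2 : sg q / 2 * p ^ 2 / (63 / 2 * 64 ^ b) ≤ sg q * x ^ 2 * 4 ^ b := by
    rw [div_le_iff₀ (by positivity)]
    have h1 : sg q / 2 * p ^ 2 ≤ sg q / 2 * (x ^ 2 * (4 ^ b * 64 ^ b)) :=
      mul_le_mul_of_nonneg_left hp2 (by positivity)
    have h2 : 0 ≤ sg q * x ^ 2 * 4 ^ b * 64 ^ b := by positivity
    linarith
  have f3 : |p| / 16 ^ b ≤ x := by
    rw [div_le_iff₀ r16]
    exact hgx
  have f4 : C2 * K0 * 4 ^ b * (1 + |p| / 16 ^ b) ≤ C2 * K0 * 4 ^ b * (1 + x) :=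
    mul_le_mul_of_nonneg_left (by linarith) (by positivity)
  have f5 : C1 * K0 ^ 2 * 4 ^ b + C2 * K0 * 4 ^ b * (1 + x) + sg q * x ^ 2 * 4 ^ b ≤
      (C1 + 2 * C2 + sg q) * (K0 + x) ^ 2 * 4 ^ b := by
    have g1 : K0 ^ 2 ≤ (K0 + x) ^ 2 := by nlinarith
    have g2 : K0 * (1 + x) ≤ 2 * (K0 + x) ^ 2 := by nlinarith
    have g3 : x ^ 2 ≤ (K0 + x) ^ 2 := by nlinarith
    have g4 : C1 * K0 ^ 2 ≤ C1 * (K0 + x) ^ 2 := mul_le_mul_of_nonneg_left g1 hC1.le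
    have g5 : C2 * (K0 * (1 + x)) ≤ C2 * (2 * (K0 + x) ^ 2) := mul_le_mul_of_nonneg_left g2 hC2.le
    have g6 : sg q * x ^ 2 ≤ sg q * (K0 + x) ^ 2 := mul_le_mul_of_nonneg_left g3 hsg.le
    calc C1 * K0 ^ 2 * 4 ^ b + C2 * K0 * 4 ^ b * (1 + x) + sg q * x ^ 2 * 4 ^ b
        = (C1 * K0 ^ 2 + C2 * (K0 * (1 + x)) + sg q * x ^ 2) * 4 ^ b := by ring
      _ ≤ (C1 * (K0 + x) ^ 2 + C2 * (2 * (K0 + x) ^ 2) + sg q * (K0 + x) ^ 2) * 4 ^ b :=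
          mul_le_mul_of_nonneg_right (by linarith) r4.le
      _ = (C1 + 2 * C2 + sg q) * (K0 + x) ^ 2 * 4 ^ b := by ring
  linarith

end Pool.Agent.H97.ND
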