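import Pool.Agent.H97.ND.DEP2

/-!
# Module RDT of Part D: regularity of the local problem on a good scale
-/

open MeasureTheory ProbabilityTheory
open scoped ENNReal

namespace Pool.Agent.H97.ND

open Pool.Agent.H99.NS Pool.Agent.H22.LPP Pool.Agent.H95.INS Pool.Agent.H76.ND
open Pool.Agent.H97.ST (Lk)
open Pool.Agent.H95.ND (zc RGG)

theorem lv_even (i : ℕ) : Even (lv i) := by
  unfold lv
  exact ⟨16 * 64 ^ (i - 1), by ring⟩

theorem pow_facts (a : ℕ) (ha : 1 ≤ a) : (4 : ℤ) * 16 ^ a ≤ 64 ^ a ∧ (0 : ℤ) < 16 ^ a ∧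
    (16 : ℤ) ^ (a + 1) = 16 * 16 ^ a ∧ lv (a + 1) = 32 * 64 ^ a ∧ lv (a + 2) = 2048 * 64 ^ a ∧
    (64 : ℤ) ^ a = 4 ^ a * 16 ^ a := by
  have e : (64 : ℤ) ^ a = 4 ^ a * 16 ^ a := by rw [← mul_pow]; norm_num
  have h4 : (4 : ℤ) ≤ 4 ^ a := by
    calc (4 : ℤ) = 4 ^ 1 := by norm_num
      _ ≤ 4 ^ a := pow_le_pow_right₀ (by norm_num) ha
  refine ⟨?_, by positivity, by rw [pow_succ]; ring, lv_succ a, ?_, e⟩
  · rw [e]
    exact mul_le_mul_of_nonneg_right h4 (by positivity)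
  · rw [show a + 2 = (a + 1) + 1 by ring, lv_succ, pow_succ]
    ring

/-- The two points around the level `-lv (a+1)` are reachable. -/
theorem reach_two (Xc : ℤ) (a : ℕ) (g : ℤ → ℤ) (v : ℤ) (ha : 1 ≤ a) (hX : 4 * Xc ≤ 4 ^ a)
    (hp : IsPath (-lv (a + 2)) 0 g) (hgX : 2 * |g (-lv (a + 2)) - g 0| ≤ Xc * 16 ^ (a + 1))
    (hv : |v - g 0| ≤ 2 * 16 ^ (a + 1)) (hev : Even (g 0 - v)) :
    Reach (-lv (a + 2), g (-lv (a + 2))) (-lv (a + 1), v) ∧ Reach (-lv (a + 1), v) (0, g 0) := by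
  obtain ⟨f1, f2, f3, f4, f5, f6⟩ := pow_facts a ha
  have hl2 := lv_pos (a + 2)
  have hX2 : Xc * 16 ^ (a + 1) ≤ 4 * 64 ^ a := by
    rw [f3, f6]
    have := mul_le_mul_of_nonneg_right hX f2.le
    linarith
  have h1 := abs_le.1 hv
  have h2 : |g (-lv (a + 2)) - g 0| ≤ 2 * 64 ^ a := by linarith
  have h2' := abs_le.1 h2
  have hlip := path_lip hp le_rfl (by linarith : -lv (a + 2) ≤ 0) le_rfl
  obtain ⟨x1, hx1⟩ := lv_even (a + 1)
  obtain ⟨x3, hx3⟩ := hlip.2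
  obtain ⟨x4, hx4⟩ := hev
  rw [f3] at h1
  generalize g (-lv (a + 2)) = G at *
  constructor
  · constructor
    · simp only
      rw [abs_le]
      constructor <;> linarith [h1.1, h1.2, h2'.1, h2'.2]
    · simp only
      exact ⟨x3 - x4 - x1, by omega⟩
  · constructor
    · simp only
      rw [abs_le]
      constructor <;> linarith [h1.1, h1.2]
    · simp only
      exact ⟨x1 + x4, by omega⟩

/-- One side: confinement and rerouting. -/
theorem side (h_U : T_U) (h_RLO : T_RLO) (h_CNC : T_CNC) (q : ℝ) (hq0 : 0 < q) (hq1 : q < 1) :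
    ∃ C : ℝ, 0 < C ∧ ∀ (P : PS) (K0 : ℝ) (Xc : ℤ) (a I k : ℕ) (v : ℤ) (g π : ℤ → ℤ) (S : ℝ),
      1 ≤ K0 → 64 ≤ Xc → 4 * Xc ≤ 4 ^ a → 1 ≤ a → a ≤ k → a + 1 ≤ I →
      GSide P q K0 Xc a I k → UL P q K0 k a (lv a) (lv (a + 1)) →
      IsPath (-lv (a + 2)) 0 g → |(g 0 : ℝ)| ≤ 8 * 16 ^ k →
      2 * |g (-lv (a + 2)) - g 0| ≤ Xc * 16 ^ (a + 1) →
      |v - g 0| ≤ 2 * 16 ^ (a + 1) → Even (g 0 - v) →
      K0 * (101 / 100) ^ (k - a) +
        |((g (-lv (a + 2)) - g 0 : ℤ) : ℝ)| / 16 ^ a ≤ S →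
      NO P 0 (-lv (a + 1)) 0 π → π (-lv (a + 1)) = v → π 0 = g 0 →
      P.W (-lv (a + 2)) 0 g ≤ P.TT (-lv (a + 2), g (-lv (a + 2))) (-lv (a + 1), v) +
        P.TT (-lv (a + 1), v) (0, g 0) + C * S ^ 2 * 4 ^ a ∧
      ∀ r, -lv (a + 1) ≤ r → r ≤ 0 → |((π r - g 0 : ℤ) : ℝ)| ≤ C * S * 16 ^ a := by
  obtain ⟨C1, hC1, hR⟩ := h_RLO q hq0 hq1
  obtain ⟨C2, hC2, hN⟩ := h_CNC q hq0 hq1
  refine ⟨C1 + C2, by positivity, ?_⟩
  intro P K0 Xc a I k v g π S hK0 hXc hX ha hak haI hG hUr hp hg0 hgX hv hev hS hNO hπ1 hπ0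
  obtain ⟨r1, r2⟩ := reach_two Xc a g v ha hX hp hgX hv hev
  have hth : (0 : ℝ) < (101 / 100) ^ (k - a) := by positivity
  have hd0 : 0 ≤ |((g (-lv (a + 2)) - g 0 : ℤ) : ℝ)| / 16 ^ a := by positivity
  have hS0 : 0 ≤ K0 * (101 / 100) ^ (k - a) := by positivity
  have hSS : 0 ≤ S := by linarith
  constructor
  · refine (hR P K0 Xc a I k v g hK0 hXc hX ha hak haI hG hp hg0 hgX hv r1 r2).trans ?_
    have h1 : (K0 * (101 / 100) ^ (k - a) +
        |((g (-lv (a + 2)) - g 0 : ℤ) : ℝ)| / 16 ^ a) ^ 2 ≤ S ^ 2 :=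
      pow_le_pow_left₀ (by positivity) hS 2
    have h2 : (0 : ℝ) < 4 ^ a := by positivity
    have h3 : C1 * (K0 * (101 / 100) ^ (k - a) +
        |((g (-lv (a + 2)) - g 0 : ℤ) : ℝ)| / 16 ^ a) ^ 2 * 4 ^ a ≤ (C1 + C2) * S ^ 2 * 4 ^ a := by
      apply mul_le_mul_of_nonneg_right _ h2.le
      have h4 : C1 * (K0 * (101 / 100) ^ (k - a) +
        |((g (-lv (a + 2)) - g 0 : ℤ) : ℝ)| / 16 ^ a) ^ 2 ≤ C1 * S ^ 2 :=
        mul_le_mul_of_nonneg_left h1 hC1.le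
      have h5 : 0 ≤ C2 * S ^ 2 := by positivity
      linarith only [h4, h5]
    linarith only [h3]
  · have hPB := h_U P q K0 a k a hq0 hq1 (by linarith) ha le_rfl hak hG.uc
      (fun i h1 h2 => by
        have : i = a := by omega
        subst this
        exact ⟨hG.u i le_rfl (by omega), hUr⟩)
    have key := hN P K0 Xc a k π hK0 hXc hX ha hak hPB hG.il (hG.l a le_rfl (by omega)) hNO
      (by rw [hπ0]; exact hg0) (by rw [hπ1, hπ0]; exact hv)
    intro r hr1 hr2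
    have h1 := key r hr1 hr2
    rw [hπ0] at h1
    refine h1.trans ?_
    have h2 : (0 : ℝ) < 16 ^ a := by positivity
    apply mul_le_mul_of_nonneg_right _ h2.le
    have h3 : C2 * (K0 * (101 / 100) ^ (k - a)) ≤ C2 * S :=
      mul_le_mul_of_nonneg_left (by linarith only [hS, hd0]) hC2.le
    have h4 : 0 ≤ C1 * S := by positivity
    linarith

/-! ### The shifted geodesic -/

/-- pieces of a geodesic are geodesics -/
theorem geod_mid {ω : Env} {o e : Site} {γ : ℤ → ℤ} (h : Geod ω o e γ) {s t : ℤ} (h1 : o.1 ≤ s)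
    (h2 : s ≤ t) (h3 : t ≤ e.1) : T ω (s, γ s) (t, γ t) ≤ wt ω s t γ := by
  obtain ⟨hc, hw⟩ := h
  have c1 : Conn o (s, γ s) γ := hc.left (by linarith)
  have c2 : Conn (s, γ s) (t, γ t) γ := hc.restrict h1 h3
  have c3 : Conn (t, γ t) e γ := hc.right (by linarith)
  have t1 := le_T ω (u := o) (v := (s, γ s)) h1 c1
  have t3 := le_T ω (u := (t, γ t)) (v := e) h3 c3
  have a1 := T_superadd ω (c1.reach h1) (c2.reach h2)
  have a2 := T_superadd ω (reach_trans (c1.reach h1) (c2.reach h2)) (c3.reach h3)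
  rw [wt_add ω h1 (h2.trans h3), wt_add ω h2 h3] at hw
  simp only at t1 t3
  linarith

theorem wt_sh (ω : Env) (z : Site) (s t : ℤ) (γ : ℤ → ℤ) :
    wt (shiftE z ω) s t (fun r => γ (r + z.1) - z.2) = wt ω (s + z.1) (t + z.1) γ := by
  rw [wt_shift]
  apply wt_congr
  intro r _ _
  simp only [sub_add_cancel]

theorem path_sh {s t : ℤ} {γ : ℤ → ℤ} (z : Site) (h : IsPath (s + z.1) (t + z.1) γ) :
    IsPath s t (fun r => γ (r + z.1) - z.2) := by
  intro r h1 h2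
  have h3 := h (r + z.1) (by omega) (by omega)
  simp only
  rw [show r + 1 + z.1 = r + z.1 + 1 by ring]
  omega

theorem ds_le (k a : ℕ) (h : a ≤ k) : ds k (a + 2) ≤ k - a + 2 := by
  unfold ds
  omega

theorem reach_oK (K : ℕ) : Reach (H97.ST.oK K) (H97.ST.eK K) := by
  have hP : (0 : ℤ) < 64 ^ (K - 1) := by positivity
  unfold H97.ST.oK H97.ST.eK
  refine ⟨?_, ?_⟩
  · simp only
    rw [sub_zero, abs_zero]
    linarith
  · exact ⟨32 * 64 ^ (K - 1), by simp only; ring⟩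

theorem rvp_rvp (g : ℤ → ℤ) : rvp (rvp g) = g := by
  funext r
  simp only [rvp, neg_neg]

theorem U_le (C U t : ℝ) (hU : 1 ≤ U) (hC : 0 ≤ C) (h : C * U ^ 2 ≤ t) : C * U ≤ t := by
  have : C * U ≤ C * U ^ 2 := mul_le_mul_of_nonneg_left (by nlinarith) hC
  linarith

/-- Local form (centre at the origin). -/
theorem loc (h_GSI : T_GSI) (h_U : T_U) (h_REV : T_REV) (h_REGE : T_REGE) (h_RLO : T_RLO)
    (h_CNC : T_CNC) (q : ℝ) (hq0 : 0 < q) (hq1 : q < 1) :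
    ∃ C : ℝ, 0 < C ∧ ∀ (K0 x : ℝ) (Xc : ℤ) (a k k' : ℕ) (ω : Env) (o e : Site) (γ : ℤ → ℤ)
      (v : ℤ) (U : ℝ), 1 ≤ K0 → 1 ≤ x → 64 ≤ Xc → 4 * Xc ≤ 4 ^ a → 1 ≤ a → a ≤ k →
      a + 3 ≤ k' → GN q K0 Xc a (k' - 2) k ω → Geod ω o e γ → o.1 ≤ -lv (k' - 2 + 1) →
      lv (k' - 2 + 1) ≤ e.1 → |(γ 0 : ℝ)| ≤ 8 * 16 ^ k → RG Xc a (k' - 2) 0 γ →
      Dt (k' - 2) 0 γ ≤ 32 * x →
      |v - γ 0| ≤ 2 * 16 ^ (a + 1) → Even (γ 0 - v) →
      U = K0 * (101 / 100) ^ (k - a) + x * (3 / 8) ^ (k' - a) →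
      (∀ r, -lv a ≤ r → r ≤ lv a → |((γ r - γ 0 : ℤ) : ℝ)| ≤ C * U * 16 ^ a) ∧
      (∃ π, Conn (-lv (a + 1), v) (0, γ 0) π ∧
        (∀ r, -lv (a + 1) ≤ r → r ≤ 0 → |((π r - γ 0 : ℤ) : ℝ)| ≤ C * U * 16 ^ a) ∧
        Reach o (-lv (a + 1), v) ∧ T ω o (0, γ 0) ≤
          T ω o (-lv (a + 1), v) + wt ω (-lv (a + 1)) 0 π + C * U ^ 2 * 4 ^ a) ∧
      (∃ π, Conn (0, γ 0) (lv (a + 1), v) π ∧
        (∀ r, 0 ≤ r → r ≤ lv (a + 1) → |((π r - γ 0 : ℤ) : ℝ)| ≤ C * U * 16 ^ a) ∧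
        Reach (lv (a + 1), v) e ∧ T ω (0, γ 0) e ≤
          wt ω 0 (lv (a + 1)) π + T ω (lv (a + 1), v) e + C * U ^ 2 * 4 ^ a) := by
  obtain ⟨C1, hC1, hRG⟩ := h_REGE q hq0 hq1
  obtain ⟨C2, hC2, hSide⟩ := side h_U h_RLO h_CNC q hq0 hq1
  obtain ⟨C3, hC3⟩ : ∃ C3 : ℝ, C3 = 1 + 256 * (608 + 2 * C1) := ⟨_, rfl⟩
  have hC3p : 0 < C3 := by rw [hC3]; positivity
  refine ⟨768 + C1 + C2 * C3 + C2 * C3 ^ 2, by positivity, ?_⟩
  intro K0 x Xc a k k' ω o e γ v U hK0 hx hXc hX ha hak hak' hGN hgeo ho he hγ0 hRGx hDt hv hev hU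
  obtain ⟨f1, f2, f3, f4, f5, f6⟩ := pow_facts a ha
  have hth : (1 : ℝ) ≤ (101 / 100) ^ (k - a) := one_le_pow₀ (by norm_num)
  have hxr : 0 ≤ x * (3 / 8 : ℝ) ^ (k' - a) := by positivity
  have hK0t : 0 ≤ K0 * (101 / 100 : ℝ) ^ (k - a) := by positivity
  have hU1 : 1 ≤ U := by
    rw [hU]
    have := one_le_mul_of_one_le_of_one_le hK0 hth
    linarith
  have haI : a + 1 ≤ k' - 2 := by omega
  obtain ⟨hGf, hGb⟩ := h_GSI q K0 Xc a (k' - 2) k ω (by omega) hGN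
  have hNear : Near ω o e (4 ^ a) γ := ⟨hgeo.1, by
    have := hgeo.2
    have h4 : (0 : ℝ) < 4 ^ a := by positivity
    linarith only [this, h4]⟩
  obtain ⟨g1, g2, -⟩ := hRG K0 Xc a (k' - 2) k ω o e 0 γ hK0 (by linarith) hX ha hak (by omega)
    ho he hGN hNear (by have := lv_pos a; omega) (lv_pos a).le hγ0 hRGx
  have hDt0 : 0 ≤ Dt (k' - 2) 0 γ := by
    unfold Dt
    positivity
  -- powers of 3/8
  have p3 : ((3 : ℝ) / 8) ^ (k' - 2 - a) ≤ 8 * (3 / 8) ^ (k' - a) := by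
    have : k' - a = k' - 2 - a + 2 := by omega
    rw [this, pow_add]
    have h0 : (0 : ℝ) < (3 / 8) ^ (k' - 2 - a) := by positivity
    nlinarith only [h0]
  have p4 : ((3 : ℝ) / 8) ^ (k' - 2 + 1 - (a + 2)) ≤ 19 * (3 / 8) ^ (k' - a) := by
    have : k' - a = k' - 2 + 1 - (a + 2) + 3 := by omega
    rw [this, pow_add]
    have h0 : (0 : ℝ) < (3 / 8) ^ (k' - 2 + 1 - (a + 2)) := by positivity
    nlinarith only [h0]
  have p5 : ((101 : ℝ) / 100) ^ ds k (a + 2) ≤ 2 * (101 / 100) ^ (k - a) := by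
    calc ((101 : ℝ) / 100) ^ ds k (a + 2) ≤ (101 / 100) ^ (k - a + 2) :=
          pow_le_pow_right₀ (by norm_num) (ds_le k a hak)
      _ = (101 / 100) ^ (k - a) * (101 / 100) ^ 2 := pow_add _ _ _
      _ ≤ 2 * (101 / 100) ^ (k - a) := by nlinarith only [hq0, hq1, hth]
  have hdisp : ∀ y : ℝ, y / 16 ^ (a + 2) ≤ (3 / 8) ^ (k' - 2 + 1 - (a + 2)) * Dt (k' - 2) 0 γ +
      C1 * K0 * (101 / 100) ^ ds k (a + 2) →
      K0 * (101 / 100) ^ (k - a) + y / 16 ^ a ≤ C3 * U := by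
    intro y hy
    have h1 : (3 / 8) ^ (k' - 2 + 1 - (a + 2)) * Dt (k' - 2) 0 γ ≤
        19 * (3 / 8) ^ (k' - a) * (32 * x) :=
      mul_le_mul p4 hDt hDt0 (by positivity)
    have h2 : C1 * K0 * (101 / 100) ^ ds k (a + 2) ≤ C1 * K0 * (2 * (101 / 100) ^ (k - a)) :=
      mul_le_mul_of_nonneg_left p5 (by positivity)
    have h3 : y / 16 ^ a = 256 * (y / 16 ^ (a + 2)) := by
      rw [pow_add]
      field_simp
      norm_num
    have h4 : C1 * (K0 * (101 / 100) ^ (k - a)) ≤ C1 * U := by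
      apply mul_le_mul_of_nonneg_left _ hC1.le
      rw [hU]
      linarith
    have h5 : x * (3 / 8 : ℝ) ^ (k' - a) ≤ U := by
      rw [hU]
      linarith
    have h6 : K0 * (101 / 100 : ℝ) ^ (k - a) ≤ U := by
      rw [hU]
      linarith
    rw [h3, hC3]
    linarith only [hq0, hq1, hU, hK0t, hU1, hy, h1, h2, h4]
  obtain ⟨m1, m2⟩ := g1 (a + 2) (by omega) (by omega)
  have c1 : Conn o (0, γ 0) γ := hgeo.1.left (by have := lv_pos (k' - 2 + 1); omega)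
  have hNm := hGN a le_rfl (by omega)
  have hlv2 : lv (a + 2) ≤ lv (k' - 2 + 1) := by
    rw [show a + 2 = (a + 1) + 1 by ring, lv_succ, lv_succ]
    have : (64 : ℤ) ^ (a + 1) ≤ 64 ^ (k' - 2) := pow_le_pow_right₀ (by norm_num) (by omega)
    linarith
  have hl2 := lv_pos (a + 2)
  have hl1 := lv_pos (a + 1)
  have hl12 : lv (a + 1) ≤ lv (a + 2) := by
    rw [f4, f5]
    have : (0 : ℤ) < 64 ^ a := by positivity
    linarith
  refine ⟨?_, ?_, ?_⟩
  · intro r hr1 hr2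
    refine (g2 r hr1 hr2).trans ?_
    have h1 : 3 * (3 / 8) ^ (k' - 2 - a) * Dt (k' - 2) 0 γ ≤ 3 * (8 * (3 / 8) ^ (k' - a)) *
        (32 * x) := mul_le_mul (by linarith) hDt hDt0 (by positivity)
    have h4 : C1 * (K0 * (101 / 100) ^ (k - a)) ≤ C1 * U := by
      apply mul_le_mul_of_nonneg_left _ hC1.le
      rw [hU]
      linarith
    have h5 : x * (3 / 8 : ℝ) ^ (k' - a) ≤ U := by
      rw [hU]
      linarith
    have h6 : 0 ≤ (C2 * C3 + C2 * C3 ^ 2) * U := by positivity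
    have h7 : (0 : ℝ) < 16 ^ a := by positivity
    rw [mul_comm]
    apply mul_le_mul_of_nonneg_right _ h7.le
    linarith only [hU, hK0t, h1, h4, h6]
  · -- lower side
    have hpath : IsPath (-lv (a + 2)) 0 γ := (hgeo.1.restrict (s := -lv (a + 2)) (t := 0)
      (by omega) (by omega)).1
    have hX2 : 2 * |γ (-lv (a + 2)) - γ 0| ≤ Xc * 16 ^ (a + 1) := hRGx.m (a + 1) (by omega) haI
    obtain ⟨r1, r2⟩ := reach_two Xc a γ v ha hX hpath hX2 hv hev
    obtain ⟨π, hπc, hπw, -⟩ := T_attained ω r2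
    have key := hSide (fwd ω) K0 Xc a (k' - 2) k v γ π (C3 * U) hK0 hXc hX ha hak haI hGf
      hNm.up hpath hγ0 hX2 hv hev (hdisp _ m1) ⟨hπc.1, by
        rw [hπc.2.1, hπc.2.2]
        change T ω (-lv (a + 1), v) (0, γ 0) - 0 ≤ wt ω (-lv (a + 1)) 0 π
        rw [hπw]
        simp only
        linarith⟩ hπc.2.1 hπc.2.2
    obtain ⟨k1, k2⟩ := key
    have cL : Conn o (-lv (a + 2), γ (-lv (a + 2))) γ := hgeo.1.left (by omega)
    have rL : Reach o (-lv (a + 2), γ (-lv (a + 2))) := cL.reach (by simp only; omega)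
    refine ⟨π, hπc, ?_, reach_trans rL r1, ?_⟩
    · intro r hr1 hr2
      refine (k2 r hr1 hr2).trans ?_
      have h7 : (0 : ℝ) < 16 ^ a := by positivity
      apply mul_le_mul_of_nonneg_right _ h7.le
      have h8 : 0 ≤ (768 + C1 + C2 * C3 ^ 2) * U := by positivity
      linarith
    · have h1 : T ω o (0, γ 0) ≤ wt ω o.1 0 γ := by
        have := geod_mid hgeo (s := o.1) (t := 0) le_rfl (by omega) (by omega)
        rw [hgeo.1.2.1] at this
        exact this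
      rw [wt_add ω (m := -lv (a + 2)) (by omega) (by omega)] at h1
      have h2 : wt ω o.1 (-lv (a + 2)) γ ≤ T ω o (-lv (a + 2), γ (-lv (a + 2))) :=
        le_T ω (u := o) (v := (-lv (a + 2), γ (-lv (a + 2)))) (by simp only; omega) cL
      have h3 := T_superadd ω rL r1
      have h4 : wt ω (-lv (a + 2)) 0 γ ≤ T ω (-lv (a + 2), γ (-lv (a + 2))) (-lv (a + 1), v) +
        T ω (-lv (a + 1), v) (0, γ 0) + C2 * (C3 * U) ^ 2 * 4 ^ a := k1
      rw [hπw] at h4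
      simp only at h4
      have h7 : (0 : ℝ) < 4 ^ a := by positivity
      have h8 : C2 * (C3 * U) ^ 2 * 4 ^ a ≤
          (768 + C1 + C2 * C3 + C2 * C3 ^ 2) * U ^ 2 * 4 ^ a := by
        apply mul_le_mul_of_nonneg_right _ h7.le
        have h9 : 0 ≤ (768 + C1 + C2 * C3) * U ^ 2 := by positivity
        calc C2 * (C3 * U) ^ 2 = C2 * C3 ^ 2 * U ^ 2 := by ring
          _ ≤ _ := by linarith
      linarith
  · -- upper side
    have hpath0 : IsPath 0 (lv (a + 2)) γ := (hgeo.1.restrict (s := 0) (t := lv (a + 2))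
      (by omega) (by omega)).1
    have hpath : IsPath (-lv (a + 2)) 0 (rvp γ) := by
      have := rvp_path hpath0
      rwa [neg_zero] at this
    have e0 : rvp γ 0 = γ 0 := by simp only [rvp, neg_zero]
    have e2 : rvp γ (-lv (a + 2)) = γ (lv (a + 2)) := by simp only [rvp, neg_neg]
    have hX2 : 2 * |rvp γ (-lv (a + 2)) - rvp γ 0| ≤ Xc * 16 ^ (a + 1) := by
      rw [e0, e2]
      exact hRGx.p (a + 1) (by omega) haI
    obtain ⟨r1, r2⟩ := reach_two Xc a (rvp γ) v ha hX hpath hX2 (by rw [e0]; exact hv)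
      (by rw [e0]; exact hev)
    have r1' : Reach (lv (a + 1), v) (lv (a + 2), γ (lv (a + 2))) := by
      have := reach_rev.2 r1
      simp only [rev, neg_neg, e2] at this
      exact this
    have r2' : Reach (0, γ 0) (lv (a + 1), v) := by
      have := reach_rev.2 r2
      simp only [rev, neg_neg, e0, neg_zero] at this
      exact this
    obtain ⟨π, hπc, hπw, -⟩ := T_attained ω r2'
    have hUb : UL (bwd ω) q K0 k a (lv a) (lv (a + 1)) := by
      have := (h_REV ω q K0 Xc k a (-lv (a + 1)) (-lv a)).1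
      rw [neg_neg, neg_neg] at this
      exact this.2 hNm.um
    have hπ0 : rvp π 0 = γ 0 := by
      have := hπc.2.1
      simp only [rvp, neg_zero]
      exact this
    have hπ1 : rvp π (-lv (a + 1)) = v := by
      have := hπc.2.2
      simp only [rvp, neg_neg]
      exact this
    have key := hSide (bwd ω) K0 Xc a (k' - 2) k v (rvp γ) (rvp π) (C3 * U) hK0 hXc hX ha hak
      haI hGb hUb hpath (by rw [e0]; exact hγ0) hX2 (by rw [e0]; exact hv)
      (by rw [e0]; exact hev) (by rw [e0, e2]; exact hdisp _ m2) ⟨by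
        have := rvp_path hπc.1
        rwa [neg_zero] at this, by
        rw [hπ0, hπ1]
        change T ω (-0, γ 0) (- -lv (a + 1), v) - 0 ≤ wt ω (-0) (- -lv (a + 1)) (rvp (rvp π))
        rw [rvp_rvp, neg_zero, neg_neg, hπw]
        simp only
        linarith⟩ hπ1 (by rw [hπ0, e0])
    obtain ⟨k1, k2⟩ := key
    have cR : Conn (lv (a + 2), γ (lv (a + 2))) e γ := hgeo.1.right (by omega)
    have rR : Reach (lv (a + 2), γ (lv (a + 2))) e := cR.reach (by simp only; omega)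
    refine ⟨π, hπc, ?_, reach_trans r1' rR, ?_⟩
    · intro r hr1 hr2
      have h6 := k2 (-r) (by omega) (by omega)
      rw [e0] at h6
      simp only [rvp, neg_neg] at h6
      refine h6.trans ?_
      have h7 : (0 : ℝ) < 16 ^ a := by positivity
      apply mul_le_mul_of_nonneg_right _ h7.le
      have h8 : 0 ≤ (768 + C1 + C2 * C3 ^ 2) * U := by positivity
      linarith
    · have h1 : T ω (0, γ 0) e ≤ wt ω 0 e.1 γ := by
        have := geod_mid hgeo (s := 0) (t := e.1) (by omega) (by omega) le_rfl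
        rw [hgeo.1.2.2] at this
        exact this
      rw [wt_add ω (m := lv (a + 2)) (by omega) (by omega)] at h1
      have h2 : wt ω (lv (a + 2)) e.1 γ ≤ T ω (lv (a + 2), γ (lv (a + 2))) e :=
        le_T ω (u := (lv (a + 2), γ (lv (a + 2)))) (v := e) (by simp only; omega) cR
      have h3 := T_superadd ω r1' rR
      have h4 : wt ω 0 (lv (a + 2)) γ ≤ T ω (lv (a + 1), v) (lv (a + 2), γ (lv (a + 2))) +
        T ω (0, γ 0) (lv (a + 1), v) + C2 * (C3 * U) ^ 2 * 4 ^ a := by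
        have k3 : wt ω (-0) (- -lv (a + 2)) (rvp (rvp γ)) ≤
            T ω (- -lv (a + 1), v) (- -lv (a + 2), rvp γ (-lv (a + 2))) +
            T ω (-0, rvp γ 0) (- -lv (a + 1), v) + C2 * (C3 * U) ^ 2 * 4 ^ a := k1
        rw [rvp_rvp, neg_zero, neg_neg, neg_neg, e0, e2] at k3
        exact k3
      rw [hπw] at h4
      simp only at h4
      have h7 : (0 : ℝ) < 4 ^ a := by positivity
      have h8 : C2 * (C3 * U) ^ 2 * 4 ^ a ≤
          (768 + C1 + C2 * C3 + C2 * C3 ^ 2) * U ^ 2 * 4 ^ a := by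
        apply mul_le_mul_of_nonneg_right _ h7.le
        have h9 : 0 ≤ (768 + C1 + C2 * C3) * U ^ 2 := by positivity
        calc C2 * (C3 * U) ^ 2 = C2 * C3 ^ 2 * U ^ 2 := by ring
          _ ≤ _ := by linarith
      linarith

theorem pf_RDT (h_LAM : B_LAM) (h_GSI : T_GSI) (h_U : T_U) (h_REV : T_REV) (h_REGE : T_REGE)
    (h_RLO : T_RLO) (h_CNC : T_CNC) : T_RDT := by
  intro q hq0 hq1
  obtain ⟨C, hC, hloc⟩ := loc h_GSI h_U h_REV h_REGE h_RLO h_CNC q hq0 hq1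
  refine ⟨C, hC, ?_⟩
  intro K0 x Xc k' a k j ω h hK0 hx hXc hX ha hak hak' hj hR hB hS hGN
  obtain ⟨f1, f2, f3, f4, f5, f6⟩ := pow_facts a ha
  obtain ⟨o, ho⟩ : ∃ o, o = H97.ST.oK k' := ⟨_, rfl⟩
  obtain ⟨e, he⟩ : ∃ e, e = H97.ST.eK k' := ⟨_, rfl⟩
  have ho1 : o.1 = -lv k' := by rw [ho]; rfl
  have he1 : e.1 = lv k' := by rw [he]; rfl
  have ho2 : o.2 = 0 := by rw [ho]; rfl
  obtain ⟨L, hL⟩ : ∃ L : ℤ → ℤ, L = Lk k' ω := ⟨_, rfl⟩
  have hgeo : Geod ω o e L := by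
    rw [hL, ho, he]
    exact (h_LAM ω _ _ (reach_oK k')).1
  rw [← hL] at hR hGN
  have hBL : ∀ t, |(L t : ℝ)| ≤ x * 16 ^ k' := by rw [hL]; exact hB
  obtain ⟨z, hz⟩ : ∃ z : Site, z = zc j a (L j / 16 ^ a) := ⟨_, rfl⟩
  have hz1 : z.1 = j := by rw [hz]; rfl
  have hz2 : z.2 = L j / 16 ^ a * 16 ^ a + j % 2 := by rw [hz]; rfl
  rw [← hz] at hGN
  have hj2 := abs_le.1 hj
  -- levels
  have hY : (0 : ℤ) < 64 ^ (k' - 2) := by positivity
  have hI1 : lv (k' - 2 + 1) = 32 * 64 ^ (k' - 2) := lv_succ _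
  have hk64 : (64 : ℤ) ^ (k' - 1) = 64 * 64 ^ (k' - 2) := by
    rw [← pow_succ']
    congr 1
    omega
  have hlvk : lv k' = 32 * 64 ^ (k' - 1) := rfl
  rw [hk64] at hj2 hlvk
  -- the shifted path
  obtain ⟨γ, hγ⟩ : ∃ γ : ℤ → ℤ, γ = fun r => L (r + z.1) - z.2 := ⟨_, rfl⟩
  have hγe : ∀ r, γ r = L (r + j) - z.2 := by
    intro r
    rw [hγ, hz1]
  have hadd : ∀ s y : ℤ, (s, y) + z = (s + j, y + z.2) := by
    intro s y
    rw [← hz1]
    rfl
  have hoz : o - z = (-lv k' - j, γ (-lv k' - j)) := by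
    apply Prod.ext
    · change o.1 - z.1 = _
      rw [ho1, hz1]
    · change o.2 - z.2 = γ (-lv k' - j)
      rw [hγe, sub_add_cancel, ← ho1, hgeo.1.2.1]
  have hez : e - z = (lv k' - j, γ (lv k' - j)) := by
    apply Prod.ext
    · change e.1 - z.1 = _
      rw [he1, hz1]
    · change e.2 - z.2 = γ (lv k' - j)
      rw [hγe, sub_add_cancel, ← he1, hgeo.1.2.2]
  have hgeo' : Geod (shiftE z ω) (o - z) (e - z) γ := by
    have c1 : Conn (o - z) (e - z) γ := by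
      refine ⟨?_, ?_, ?_⟩
      · rw [hγ]
        apply path_sh
        change IsPath (o.1 - z.1 + z.1) (e.1 - z.1 + z.1) L
        rw [sub_add_cancel, sub_add_cancel]
        exact hgeo.1.1
      · rw [hoz]
      · rw [hez]
    refine ⟨c1, ?_⟩
    have h1 : wt (shiftE z ω) (o - z).1 (e - z).1 γ = wt ω o.1 e.1 L := by
      rw [hγ, wt_sh]
      change wt ω (o.1 - z.1 + z.1) (e.1 - z.1 + z.1) L = _
      rw [sub_add_cancel, sub_add_cancel]
    rw [h1, T_shift, sub_add_cancel, sub_add_cancel]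
    exact hgeo.2
  -- differences
  have hdiff : ∀ i, a ≤ i → ∀ s t, -lv k' ≤ s + j → s ≤ t → t + j ≤ lv k' →
      t - s ≤ 64 ^ (i + 1) → 2 * |γ t - γ s| ≤ Xc * 16 ^ i := by
    intro i hi s t h1 h2 h3 h4
    have := hR i hi (s + j) (t + j) h1 (by omega) h3 (by omega)
    rw [hγe, hγe, show L (t + j) - z.2 - (L (s + j) - z.2) = L (t + j) - L (s + j) by ring]
    exact this
  have hlvi : ∀ i, i ≤ k' - 2 → lv (i + 1) ≤ 32 * 64 ^ (k' - 2) := by
    intro i hi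
    rw [lv_succ]
    have : (64 : ℤ) ^ i ≤ 64 ^ (k' - 2) := pow_le_pow_right₀ (by norm_num) hi
    linarith only [this]
  have hlvp : ∀ i, lv (i + 1) ≤ 64 ^ (i + 1) := by
    intro i
    rw [lv_succ, pow_succ]
    have : (0 : ℤ) < 64 ^ i := by positivity
    linarith
  have hRG : RG Xc a (k' - 2) 0 γ := by
    refine ⟨?_, ?_, ?_⟩
    · intro i h1 h2
      have h3 := hlvi i h2
      have h4 := lv_pos (i + 1)
      have h5 := hlvp i
      have := hdiff i h1 (-lv (i + 1)) 0 (by rw [hlvk]; linarith [hj2.1, hj2.2]) (by omega)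
        (by rw [hlvk]; linarith [hj2.1, hj2.2]) (by omega)
      rwa [abs_sub_comm] at this
    · intro i h1 h2
      have h3 := hlvi i h2
      have h4 := lv_pos (i + 1)
      have h5 := hlvp i
      exact hdiff i h1 0 (lv (i + 1)) (by rw [hlvk]; linarith only [hj2.1, hj2.2, hj2, hY]) (by omega)
        (by rw [hlvk]; linarith [hj2.1, hj2.2]) (by omega)
    · intro r h1 h2
      have h3 := hlvi a (by omega)
      have h4 := hlvp a
      have h5 : lv a ≤ lv (a + 1) := by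
        have h6 := lv_two a ha
        have h7 := lv_pos a
        rw [lv_succ]
        linarith
      rcases le_total r 0 with h6 | h6
      · have := hdiff a le_rfl r 0 (by rw [hlvk]; linarith [hj2.1, hj2.2]) h6
          (by rw [hlvk]; linarith [hj2.1, hj2.2]) (by omega)
        rwa [abs_sub_comm] at this
      · exact hdiff a le_rfl 0 r (by rw [hlvk]; linarith [hj2.1, hj2.2]) h6
          (by rw [hlvk]; linarith [hj2.1, hj2.2]) (by omega)
  have hx0 : 0 ≤ x := by linarith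
  have hDt : Dt (k' - 2) 0 γ ≤ 32 * x := by
    have key : ∀ s : ℤ, |((γ s - γ 0 : ℤ) : ℝ)| ≤ 32 * x * 16 ^ (k' - 2 + 1) := by
      intro s
      have h1 := hBL (s + j)
      have h2 := hBL (0 + j)
      have h3 : ((γ s - γ 0 : ℤ) : ℝ) = (L (s + j) : ℝ) - (L (0 + j) : ℝ) := by
        rw [hγe, hγe]
        push_cast
        ring
      have h4 : (16 : ℝ) ^ k' = 16 * 16 ^ (k' - 2 + 1) := by
        rw [← pow_succ']
        congr 1
        omega
      rw [h3]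
      have h5 := abs_sub (L (s + j) : ℝ) (L (0 + j) : ℝ)
      rw [h4] at h1 h2
      linarith
    unfold Dt
    rw [div_le_iff₀ (by positivity)]
    exact max_le (key _) (key _)
  -- position at the centre
  have w1 : L j / 16 ^ a * 16 ^ a ≤ L j := Int.ediv_mul_le _ f2.ne'
  have w2 : L j < (L j / 16 ^ a + 1) * 16 ^ a := Int.lt_ediv_add_one_mul_self _ f2
  have w3 : (L j / 16 ^ a + 1) * 16 ^ a = L j / 16 ^ a * 16 ^ a + 16 ^ a := by ring
  have b7 : 0 ≤ j % 2 := Int.emod_nonneg j (by norm_num)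
  have b8 : j % 2 < 2 := Int.emod_lt_of_pos j (by norm_num)
  have hγ0 : |γ 0| ≤ 16 ^ a := by
    rw [hγe, zero_add, hz2, abs_le]
    constructor <;> linarith
  have hγ0r : |(γ 0 : ℝ)| ≤ 8 * 16 ^ k := by
    have h1 : |(γ 0 : ℝ)| ≤ 16 ^ a := by exact_mod_cast hγ0
    have h2 : (16 : ℝ) ^ a ≤ 16 ^ k := pow_le_pow_right₀ (by norm_num) hak
    have h3 : (0 : ℝ) < 16 ^ k := by positivity
    linarith
  -- the grid point
  have g2 : (0 : ℤ) < 16 ^ (a + 1) := by positivity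
  obtain ⟨v', hv'⟩ : ∃ v', v' = L j / 16 ^ (a + 1) * 16 ^ (a + 1) + j % 2 := ⟨_, rfl⟩
  have u1 : L j / 16 ^ (a + 1) * 16 ^ (a + 1) ≤ L j := Int.ediv_mul_le _ g2.ne'
  have u2 : L j < (L j / 16 ^ (a + 1) + 1) * 16 ^ (a + 1) := Int.lt_ediv_add_one_mul_self _ g2
  have u3 : (L j / 16 ^ (a + 1) + 1) * 16 ^ (a + 1) =
      L j / 16 ^ (a + 1) * 16 ^ (a + 1) + 16 ^ (a + 1) := by ring
  have hvL : |v' - L j| ≤ 16 ^ (a + 1) := by
    rw [hv', abs_le]
    constructor <;> linarith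
  have hgrid : H97.ST.Grid (a + 1) v' := by
    rcases (by omega : j % 2 = 0 ∨ j % 2 = 1) with h1 | h1
    · left
      rw [hv', h1, add_zero]
      exact dvd_mul_left _ _
    · right
      rw [hv', h1, add_sub_cancel_right]
      exact dvd_mul_left _ _
  have hev : Even (L j - v') := by
    have h1 := (path_lip hgeo.1.1 le_rfl (b := j) (by rw [ho1, hlvk]; linarith [hj2.1])
      (by rw [he1, hlvk]; linarith [hj2.2])).2
    rw [hgeo.1.2.1, ho1, ho2, sub_zero] at h1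
    obtain ⟨x1, hx1⟩ := h1
    obtain ⟨x2, hx2⟩ := lv_even k'
    have h2 : L j / 16 ^ (a + 1) * 16 ^ (a + 1) = 2 * (L j / 16 ^ (a + 1) * (8 * 16 ^ a)) := by
      rw [f3]
      ring
    rw [hv', h2]
    exact ⟨x1 - j - x2 + (j - j % 2) / 2 - L j / 16 ^ (a + 1) * (8 * 16 ^ a), by omega⟩
  obtain ⟨v, hv⟩ : ∃ v, v = v' - z.2 := ⟨_, rfl⟩
  have hvγ : v - γ 0 = v' - L j := by
    rw [hv, hγe, zero_add]
    ring
  obtain ⟨U, hU⟩ : ∃ U : ℝ, U = K0 * (101 / 100) ^ (k - a) + x * (3 / 8) ^ (k' - a) := ⟨_, rfl⟩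
  rw [← hU] at hS
  have hU1 : 1 ≤ U := by
    rw [hU]
    have h1 : (1 : ℝ) ≤ (101 / 100) ^ (k - a) := one_le_pow₀ (by norm_num)
    have h2 := one_le_mul_of_one_le_of_one_le hK0 h1
    have h3 : 0 ≤ x * (3 / 8 : ℝ) ^ (k' - a) := by positivity
    linarith
  have hCU := U_le C U (2 ^ h) hU1 hC.le hS
  obtain ⟨m1, ⟨π₁, c1, c2, c3, c4⟩, ⟨π₂, d1, d2, d3, d4⟩⟩ := hloc K0 x Xc a k k' (shiftE z ω)
    (o - z) (e - z) γ v U hK0 hx hXc hX ha hak hak' hGN hgeo'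
    (by rw [hoz]; simp only; rw [hI1, hlvk]; linarith [hj2.1, hj2.2])
    (by rw [hez]; simp only; rw [hI1, hlvk]; linarith [hj2.1, hj2.2]) hγ0r hRG hDt
    (by rw [hvγ]; linarith) (by rw [show γ 0 - v = L j - v' by linarith]; exact hev) hU
  have r16 : (0 : ℝ) < 16 ^ a := by positivity
  have r4 : (0 : ℝ) < 4 ^ a := by positivity
  have two1 : (1 : ℤ) ≤ 2 ^ h := one_le_pow₀ (by norm_num)
  have two1r : (1 : ℝ) ≤ 2 ^ h := one_le_pow₀ (by norm_num)
  have hgv : |v' - L j| ≤ 2 ^ h * 16 ^ (a + 1) := by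
    have : 1 * (16 : ℤ) ^ (a + 1) ≤ 2 ^ h * 16 ^ (a + 1) :=
      mul_le_mul_of_nonneg_right two1 g2.le
    linarith
  have hconf : ∀ y : ℤ, |((y - γ 0 : ℤ) : ℝ)| ≤ C * U * 16 ^ a →
      |y + z.2 - L j| ≤ 2 ^ h * 16 ^ (a + 1) := by
    intro y hy
    have h1 : y + z.2 - L j = y - γ 0 := by
      rw [hγe, zero_add]
      ring
    have h2 : C * U * 16 ^ a ≤ 2 ^ h * 16 ^ (a + 1) := by
      rw [pow_succ]
      have h3 : C * U * 16 ^ a ≤ 2 ^ h * 16 ^ a := mul_le_mul_of_nonneg_right hCU r16.le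
      have h4 : (0 : ℝ) < 2 ^ h * 16 ^ a := by positivity
      linarith
    rw [h1]
    have h5 := hy.trans h2
    exact_mod_cast h5
  have herr : C * U ^ 2 * 4 ^ a ≤ 2 ^ h * 4 ^ (a + 1) := by
    rw [pow_succ (4 : ℝ) a]
    have h3 : C * U ^ 2 * 4 ^ a ≤ 2 ^ h * 4 ^ a := mul_le_mul_of_nonneg_right hS r4.le
    have h4 : (0 : ℝ) < 2 ^ h * 4 ^ a := by positivity
    linarith
  have hz0 : ((0 : ℤ), γ 0) + z = (j, L j) := by
    rw [hadd, hγe, zero_add, sub_add_cancel]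
  have hvm : (-lv (a + 1), v) + z = (j - lv (a + 1), v') := by
    rw [hadd, hv, sub_add_cancel, neg_add_eq_sub]
  have hvp : (lv (a + 1), v) + z = (j + lv (a + 1), v') := by
    rw [hadd, hv, sub_add_cancel, add_comm]
  rw [T_shift, T_shift, hz0, hvm, sub_add_cancel, wt_shift] at c4
  rw [T_shift, T_shift, hz0, hvp, sub_add_cancel, wt_shift] at d4
  have cc := conn_shift z c1
  have dd := conn_shift z d1
  rw [hz0, hvm] at cc
  rw [hz0, hvp] at dd
  have rr := (reach_shift z).2 c3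
  have ss := (reach_shift z).2 d3
  rw [sub_add_cancel, hvm] at rr
  rw [sub_add_cancel, hvp] at ss
  rw [hz1] at c4 d4 cc dd
  rw [neg_add_eq_sub, zero_add] at c4
  rw [zero_add, add_comm (lv (a + 1)) j] at d4
  have hLj : Lk k' ω = L := hL.symm
  refine ⟨?_, ?_, ?_⟩
  · intro t ht
    rw [hLj]
    have h6 := lv_two a ha
    have h7 : |t - j| ≤ lv a := by linarith
    rw [abs_le] at h7
    have h8 := m1 (t - j) (by linarith) (by linarith)
    rw [hγe, hγe, sub_add_cancel, zero_add] at h8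
    have h9 : L t - z.2 - (L j - z.2) = L t - L j := by ring
    rw [h9] at h8
    have h10 : |((L t - L j : ℤ) : ℝ)| ≤ 2 ^ h * 16 ^ a :=
      h8.trans (mul_le_mul_of_nonneg_right hCU r16.le)
    exact_mod_cast h10
  · refine ⟨v', fun r => π₁ (r - j) + z.2, hgrid, ?_, ?_, ?_, ?_, ?_⟩
    · rw [hLj]
      exact hgv
    · rw [← ho]
      exact rr
    · rw [hLj]
      exact cc
    · intro t ht1 ht2
      rw [hLj]
      have ht1' : j - lv (a + 1) ≤ t := ht1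
      exact hconf _ (c2 (t - j) (by linarith) (by linarith))
    · rw [hLj, ← ho]
      change T ω o (j, L j) ≤ T ω o (j - lv (a + 1), v') +
        wt ω (j - lv (a + 1)) j (fun r => π₁ (r - j) + z.2) + 2 ^ h * 4 ^ (a + 1)
      linarith
  · refine ⟨v', fun r => π₂ (r - j) + z.2, hgrid, ?_, ?_, ?_, ?_, ?_⟩
    · rw [hLj]
      exact hgv
    · rw [← he]
      exact ss
    · rw [hLj]
      exact dd
    · intro t ht1 ht2
      rw [hLj]
      have ht2' : t ≤ j + lv (a + 1) := ht2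
      exact hconf _ (d2 (t - j) (by linarith) (by linarith))
    · rw [hLj, ← he]
      change T ω (j, L j) e ≤ wt ω j (j + lv (a + 1)) (fun r => π₂ (r - j) + z.2) +
        T ω (j + lv (a + 1), v') e + 2 ^ h * 4 ^ (a + 1)
      linarith

end Pool.Agent.H97.ND
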