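import Pool.Agent.H76.ND.Targets2
import Pool.Agent.H97.NF.All

/-!
# Module KK of Part D: the input of Part F
-/

open MeasureTheory ProbabilityTheory
open scoped ENNReal

namespace Pool.Agent.H97.ND

open Pool.Agent.H99.NS Pool.Agent.H22.LPP Pool.Agent.H95.INS Pool.Agent.H76.ND
open Pool.Agent.H97.NF (Infx domN tile kbox rk quad)

theorem fail_nonneg (C c s E : ℝ) (n a : ℕ) (z : ℤ × ℤ) (hC : 0 ≤ C) (hE : 0 ≤ E) :
    0 ≤ fail C c s E n a z := by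
  unfold fail
  split_ifs
  · positivity
  · exact le_rfl

theorem pf_KK (h_CST : T_CST) (h_KTL : T_KTL) (h_KSM : T_KSM) : T_KK := by
  intro q hq0 hq1 hLT hN hV hO
  obtain ⟨Cg, hCg, hT⟩ := h_KTL q (1 / 2) hq0 hq1 (by norm_num) (by norm_num) hLT hN
  obtain ⟨c, κ, c₁, p₀, k₀, hc⟩ := h_CST q 100 Cg hq0 hq1 (by norm_num) hCg hN hV hO
  obtain ⟨C, c', s, n0, hC, hc', hs, hT⟩ := hT 100 κ c₁ p₀ k₀ c le_rfl hc
  obtain ⟨C', hC', hK⟩ := h_KSM C c' c' s hC hc' hc' hs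
  obtain ⟨δ, hpk⟩ := hc.pk
  have hA : (1 : ℝ) ≤ (c.A : ℝ) := by
    have : (1 : ℤ) ≤ c.A := by linarith [hpk.A1]
    exact_mod_cast this
  refine ⟨max C C', 100, κ, 1 / 2, c.A, max n0 1, le_max_of_le_left hC.le, by norm_num, hc.κ0,
    hc.κ1, by norm_num, by norm_num, hA, ?_⟩
  intro n hn r hr0 hr1 a ha h1 h2 h3
  have hE : (0 : ℝ) ≤ C * (n : ℝ) ^ 40 * Real.exp (-((2 * n : ℕ) : ℝ) ^ c') := by positivity
  refine ⟨fun z => fail C c' s (C * (n : ℝ) ^ 40 * Real.exp (-((2 * n : ℕ) : ℝ) ^ c')) n a z,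
    fun z => fail_nonneg _ _ _ _ _ _ _ hC.le hE, ?_, ?_⟩
  · intro Z
    refine (hK n a ((le_max_right _ _).trans hn) ha h2 Z).trans ?_
    exact mul_le_mul_of_nonneg_right (le_max_right _ _) (by positivity)
  · intro ρ hρ z hz
    refine (hT n a z r ρ ((le_max_left _ _).trans hn) hr0 hr1 ha h1 h2 h3 hρ hz).trans ?_
    refine add_le_add ?_ le_rfl
    refine mul_le_mul_of_nonneg_right (le_max_left _ _) ?_
    refine Finset.sum_nonneg fun k _ => ?_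
    refine mul_nonneg (by positivity) (Finset.sum_nonneg fun x _ => ?_)
    exact (Pool.Agent.H97.NF.a_VVF q hq0.le hq1 n).2.2.2.2.2.2 _ x

end Pool.Agent.H97.ND
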